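import Pool.Agent.Y601.SSE.Games

set_option autoImplicit false

/-!
# 2-to-1 games are not hard under constant-depth reductions

The definitions used in the statement are `numEdges`, `numSat`, `game` in
`Pool/Agent/Y601/SSE/GameDefs.lean` and circuits (`Circuit`, `nodeVal`, `nodeDepth`) in
`Pool/Agent/H568R2/Defs.lean`.

A many-one reduction from parity to 2-to-1 games with value one or at most `δ` which is computed by
circuits of constant depth needs exponential size, whatever the alphabet. So for no `δ < 1` and no
`q` is the problem hard for `NP`, or even for parity, under (nonuniform) `AC0` many-one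
reductions. The first part is uniform in the gap: a reduction with `S` gates cannot create a
gap `1 - δ` larger than `b (log S) ^ O(h)` divided by `N`. The second part says that this is sharp
up to the logarithms: parity of `N` bits reduces without any gates to games with `2 N` edges,
alphabet size two and values `1` and `1 - 1 / (2 N)`.

Idea of the proof. A yes instance and a no instance differ in a fraction of the edges proportional
to the gap. Under a random restriction which leaves many variables free all the bits of the edges
become decision trees of small depth `s`, and so at every input at most `b s` of the free variables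
are sensitive for a given edge. Count the triples of an input, a free variable and an edge which
changes when the variable is flipped. The number of edges may depend on the input.
-/

namespace Pool.Agent.Results.MP_ec946a_lc.ConstantDepthReductions

open Finset DomAC0 Pool.Agent.Y601.SSE.Games
open scoped Classical

/-- (1) For every depth `h` there is `X₀` with the following property. Let `C` be a circuit with `N`
inputs, with NOT gates and AND and OR gates of unbounded fan-in, and let `out e 1, ..., out e b` be
nodes of depth at most `h` whose values on the input `x` are decoded to entry `e` of a list, which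
may be empty or an edge of a 2-to-1 game with alphabet size `q`. Let `0 ≤ δ < 1`. If the game has at
least one edge, has value one whenever `x` has an even number of ones, and has value at most `δ`
whenever `x` has an odd number of ones, and if `X = (1 - δ) N / b ≥ X₀`, then `C` has at least
`2 ^ (X ^ (1 / (h + 1)) / 100)` gates.

(2) For every number `N = n + 1` of inputs there is a circuit without gates which in this way
computes 2-to-1 games with alphabet size two and `2 N` edges all of which can be satisfied if and
only if `x` has an even number of ones. -/
theorem result :
    (∀ h : ℕ, ∃ X₀ : ℝ, ∀ (N m b q : ℕ) (C : Circuit (Fin N)) (U V : Type)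
      (out : Fin m → Fin b → Fin N ⊕ Fin C.size)
      (dec : Fin m → (Fin b → Bool) → Option (U × V × (Fin q → Fin q))) (δ : ℝ),
      (∀ e j, C.nodeDepth (out e j) ≤ h) → 1 ≤ b →
      (∀ x e u v π, game C out dec x e = some (u, v, π) →
        ∀ a, (univ.filter fun z => π z = a).card ≤ 2) →
      (∀ x, 1 ≤ numEdges (game C out dec x)) → 0 ≤ δ → δ < 1 →
      (∀ x, ¬ Odd (univ.filter fun i => x i = true).card →
        ∃ M L, numSat (game C out dec x) M L = numEdges (game C out dec x)) →
      (∀ x, Odd (univ.filter fun i => x i = true).card →
        ∀ M L, (numSat (game C out dec x) M L : ℝ) ≤ δ * numEdges (game C out dec x)) →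
      X₀ ≤ (1 - δ) * (N / b) →
      (2 : ℝ) ^ (((1 - δ) * (N / b)) ^ (1 / (h + 1 : ℝ)) / 100) ≤ C.size) ∧
    (∀ n : ℕ, ∃ (C : Circuit (Fin (n + 1)))
      (out : Fin ((n + 1) * 2) → Fin 1 → Fin (n + 1) ⊕ Fin C.size)
      (dec : Fin ((n + 1) * 2) → (Fin 1 → Bool) →
        Option (Fin (n + 1) × Fin (n + 1) × (Fin 2 → Fin 2))),
      C.size = 0 ∧
      (∀ x e u v π, game C out dec x e = some (u, v, π) →
        ∀ a, (univ.filter fun z => π z = a).card ≤ 2) ∧
      (∀ x, numEdges (game C out dec x) = (n + 1) * 2) ∧
      (∀ x, ¬ Odd (univ.filter fun i => x i = true).card →
        ∃ M L, numSat (game C out dec x) M L = (n + 1) * 2) ∧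
      (∀ x, Odd (univ.filter fun i => x i = true).card →
        ∀ M L, numSat (game C out dec x) M L < (n + 1) * 2)) := by
  constructor
  · intro h
    obtain ⟨X₀, hX⟩ := games_main h
    refine ⟨X₀, ?_⟩
    intro N m b q C U V out dec δ h1 h2 _ h3 h5 h6 h7 h8 h9
    refine hX N m b C U V (Fin q) (Fin q) out dec 1 δ h1 h2 h3 h5 h6 le_rfl (fun x hx => ?_) h8 h9
    obtain ⟨M, L, hML⟩ := h7 x hx
    exact ⟨M, L, by rw [hML, one_mul]⟩
  · intro n
    obtain ⟨C, out, dec, h1, _, h3, h4, h5, h6⟩ := cycle_game n (A := ZMod 2) id
      Function.surjective_id
    refine ⟨C, out, dec, h1, ?_, h4, h5, h6⟩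
    intro x e u v π _ a
    exact (card_filter_le _ _).trans (by simp)

end Pool.Agent.Results.MP_ec946a_lc.ConstantDepthReductions
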