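import Pool.Agent.Y630.TG.Games

/-!
# The 2-to-1 games conjecture with perfect completeness for circuits with unreliable negations

A 2-to-1 game with vertex sets of size `N` and alphabet `[q]` is given by bits: for all vertices `u`
and `v`, all maps `π` of labels and all tags `j < K`, the bit of the position `(u, v, π, j)` tells
whether the game has an edge from `u` to `v` with the constraint `π` and the tag `j`. Only games with
at most one edge for each pair of vertices are considered (so no edge is repeated); the tag has no
meaning.

The model: randomised circuits whose inputs are these bits and their negations, with gates that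
compute arbitrary nondecreasing real functions of two arguments. All circuits with AND, OR and NOT
gates can be brought into this form by doubling their size. No bound on the depth is assumed. A
randomised circuit is a finite nonempty family of circuits from which one is chosen uniformly at
random.

Faults: each negated input (the information that there is no such edge at a position) is stuck at
`0`, independently with probability `1 / D`. The other inputs are reliable.

Result: for all `δ > 0` there is an alphabet size `q` such that for all large `N`, all `D` and all
`K ≥ D (2 log N + q log q + 4)` the following holds. Randomised circuits which accept the games of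
value at most `δ` with probability at least `4 / 5` under faults, and the games of value one with
probability at most `1 / 4` without faults, need `(2 ^ (N ^ (1 / 14)) - 2) / 3` gates.

* So exponential size is necessary if an arbitrarily small constant fraction `1 / D` of the negated
  inputs is unreliable, and `K = O(D log N)` tags are enough. Without faults this would be an
  unconditional form of the conjecture (for circuits, instead of NP-hardness).
* For `D = 1` all negated inputs are faulty: this is the case of monotone circuits, the starting
  result `MonotoneCircuits`, which is used in the proof.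
* For unique games with perfect completeness the statement fails, since propagation of labels is
  done by monotone circuits of polynomial size.

The proof: the edges of a game without tags get random tags. The tagged game shows only the tags of
its edges, and the positions that the other constraints would get are as good as random faulty
inputs. So all negated inputs that depend on the game without tags can be replaced by `0`, and this
gives a monotone randomised circuit for the games without tags.
-/

set_option autoImplicit false

namespace Pool.Agent.Results.MP_ec946a_lc.FaultyNegations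

open Finset

/-- A circuit with the gates `0, ..., s - 1` whose inputs are the bits of the positions `e` in `E` and
their negations: `(e, true)` stands for the bit of `e` and `(e, false)` for its negation. Gate `i`
has `w i ≤ 2` inputs, namely `a i j`, each a literal (`0` or `1`) or an earlier gate; it computes a
nondecreasing function `op i` of real numbers, and its value on the values `y` of the literals is
`val y i`. The circuit accepts if the value of gate `out` is at least `τ`. -/
structure LiteralCircuit (E : Type) where
  s : ℕ
  w : Fin s → ℕ
  a : (i : Fin s) → Fin (w i) → (E × Bool) ⊕ Fin s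
  op : (i : Fin s) → (Fin (w i) → ℝ) → ℝ
  val : (E × Bool → Bool) → Fin s → ℝ
  out : Fin s
  τ : ℝ
  earlier : ∀ i j m, a i j = Sum.inr m → m < i
  mono : ∀ i, w i ≤ 2 ∧ Monotone (op i)
  spec : ∀ y i, val y i = op i (fun j =>
    Sum.elim (fun p => if y p = true then (1 : ℝ) else 0) (val y) (a i j))

/-- The positions `((u, v, π), j)`: an edge from `u` to `v` with the tag `j` and the constraint that
`π` maps the label of `u` to the label of `v`. -/
abbrev Position (N q K : ℕ) : Type := (Fin N × Fin N × (Fin q → Fin q)) × Fin K

/-- The game (the set of the positions `e` with `x e = true`) is a 2-to-1 game: it has at least one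
edge and at most one edge for each pair of vertices, and the fibers of its constraints have at most
two elements. -/
def TwoToOne {N q K : ℕ} (x : Position N q K → Bool) : Prop :=
  (∃ e, x e = true) ∧
  (∀ e e', x e = true → x e' = true → e.1.1 = e'.1.1 → e.1.2.1 = e'.1.2.1 → e = e') ∧
  ∀ e, x e = true → ∀ b, (univ.filter fun a => e.1.2.2 a = b).card ≤ 2

/-- The labeling satisfies the edge. -/
def Satisfies {N q K : ℕ} (A B : Fin N → Fin q) (e : Position N q K) : Prop :=
  e.1.2.2 (A e.1.1) = B e.1.2.1

/-- 2-to-1 games of value one: some labeling satisfies all edges. -/
def ValueOne {N q K : ℕ} (x : Position N q K → Bool) : Prop :=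
  TwoToOne x ∧ ∃ A B : Fin N → Fin q, ∀ e, x e = true → Satisfies A B e

open Classical in
/-- 2-to-1 games of value at most `δ`: every labeling satisfies at most the fraction `δ` of the
edges. -/
def ValueAtMost {N q K : ℕ} (δ : ℝ) (x : Position N q K → Bool) : Prop :=
  TwoToOne x ∧ ∀ A B : Fin N → Fin q,
    ((univ.filter fun e => x e = true ∧ Satisfies A B e).card : ℝ) ≤
      δ * (univ.filter fun e => x e = true).card

open Classical in
/-- The values of the literals on the game `x` if the negated inputs of the positions in `Z` are
stuck at `0`. -/
noncomputable def literals {E : Type} (x : E → Bool) (Z : Set E) : E × Bool → Bool :=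
  fun p => if p.2 = true then x p.1 else if p.1 ∈ Z then false else !x p.1

/-- The circuit accepts the game `x` if the negated inputs of the positions in `Z` are stuck at
`0`. -/
def LiteralCircuit.Accepts {E : Type} (C : LiteralCircuit E) (x : E → Bool) (Z : Set E) : Prop :=
  C.τ ≤ C.val (literals x Z) C.out

/-- The probability that the game `x` is accepted by a circuit that is chosen uniformly at random
from the family `C`, without faults. -/
noncomputable def acceptance {E R : Type} (C : R → LiteralCircuit E) (x : E → Bool) : ℝ :=
  (Nat.card {ρ : R // (C ρ).Accepts x ∅} : ℝ) / Nat.card R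

/-- The probability that the game `x` is accepted by a circuit that is chosen uniformly at random
from the family `C`, if each negated input is stuck at `0` independently with probability `1 / D`
(each position `e` gets a random number `f e` from `0` to `D - 1`, and `0` means a fault). -/
noncomputable def faultyAcceptance {E R : Type} (C : R → LiteralCircuit E) (D : ℕ)
    (x : E → Bool) : ℝ :=
  (Nat.card {v : R × (E → Fin D) // (C v.1).Accepts x {e | (v.2 e : ℕ) = 0}} : ℝ) /
    Nat.card (R × (E → Fin D))

/-- For every `δ > 0` there are `q ≥ 1` and `N0` such that for all `N ≥ N0`, `D ≥ 1` and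
`K ≥ D (2 log N + q log q + 4)` the following holds. If a finite nonempty family of circuits on
literals with nondecreasing real gates of fan-in at most two and with at most `s` gates accepts
every 2-to-1 game (with `N + N` vertices, alphabet `[q]` and tags `j < K` at the edges) of value at
most `δ` with probability at least `4 / 5`, even if each negated input is stuck at `0` independently
with probability `1 / D`, and every game of value one with probability at most `1 / 4` (without
faults), then `2 ^ (N ^ (1 / 14)) ≤ 3 s + 2`. -/
theorem result (δ : ℝ) (hδ : 0 < δ) :
    ∃ q : ℕ, 1 ≤ q ∧ ∃ N0 : ℕ, ∀ N D K : ℕ, N0 ≤ N → 1 ≤ D →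
      D * (2 * Real.log N + q * Real.log q + 4) ≤ K →
      ∀ (R : Type) [Finite R] [Nonempty R] (C : R → LiteralCircuit (Position N q K)) (s : ℕ),
        (∀ ρ, (C ρ).s ≤ s) →
        (∀ x, ValueAtMost δ x → 4 / 5 ≤ faultyAcceptance C D x) →
        (∀ x, ValueOne x → acceptance C x ≤ 1 / 4) →
        (2 : ℝ) ^ ((N : ℝ) ^ (1 / 14 : ℝ)) ≤ 3 * s + 2 := by
  classical
  obtain ⟨q, hq, N0, H⟩ := Pool.Agent.Y630.TG.two_fault δ hδ
  refine ⟨q, hq, N0, ?_⟩
  intro N D K hN hD hK R _ _ C s hs h1 h2
  let _ : Fintype R := Fintype.ofFinite R
  have hR : (0 : ℝ) < Fintype.card R := by exact_mod_cast Fintype.card_pos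
  have hDR : (0 : ℝ) < D := by exact_mod_cast hD
  have hlit : ∀ (x : Position N q K → Bool) (Z : Set (Position N q K)),
      Pool.Agent.Y630.TF.lit x Z = literals x Z := by
    intro x Z
    funext q
    unfold Pool.Agent.Y630.TF.lit literals
    by_cases hq : q.2 = true
    · rw [if_pos hq, if_pos hq]
    · rw [if_neg hq, if_neg hq]
      by_cases hZ : q.1 ∈ Z
      · simp [hZ]
      · simp [hZ]
  set C' : R → Pool.Agent.W969.MC.RC (Position N q K × Bool) := fun ρ => ⟨(C ρ).s, ∅, (C ρ).w,
    (C ρ).a, (C ρ).op, fun _ _ => 0, (C ρ).val, (C ρ).out, (C ρ).τ, (C ρ).earlier,
    fun i _ => (C ρ).mono i, fun i hi => absurd hi (Finset.notMem_empty i), (C ρ).spec⟩ with hC'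
  refine H N D K hN hD hK R C' s (fun _ => rfl) hs (fun x hx => ?_) (fun x hx => ?_)
  · have h3 := h1 x ⟨⟨hx.2.1, hx.1⟩, fun A B => by
      have h4 := hx.2.2 A B
      unfold Satisfies
      convert h4⟩
    unfold faultyAcceptance at h3
    rw [le_div_iff₀ (by
      rw [Nat.card_eq_fintype_card, Fintype.card_prod, Fintype.card_fun, Fintype.card_fin]
      push_cast
      positivity)] at h3
    rw [Nat.card_eq_fintype_card (α := R × (Position N q K → Fin D)), Fintype.card_prod,
      Fintype.card_fun, Fintype.card_fin] at h3
    refine (le_of_eq ?_).trans (h3.trans (le_of_eq ?_))
    · push_cast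
      rfl
    congr 1
    show Nat.card ↥{v : R × (Position N q K → Fin D) |
      (C v.1).Accepts x {c | (v.2 c : ℕ) = 0}} = _
    rw [Nat.card_coe_set_eq]
    congr 1
    ext v
    show (C v.1).τ ≤ (C v.1).val (literals x {c | (v.2 c : ℕ) = 0}) (C v.1).out ↔
      (C v.1).τ ≤ (C v.1).val (Pool.Agent.Y630.TF.lit x (Pool.Agent.Y630.NW.Flt v.2)) (C v.1).out
    rw [hlit]
    rfl
  · have h3 := h2 x ⟨⟨hx.2.1, hx.1⟩, hx.2.2⟩
    unfold acceptance at h3
    rw [div_le_iff₀ (by rw [Nat.card_eq_fintype_card]; exact hR),
      Nat.card_eq_fintype_card (α := R)] at h3
    refine (le_of_eq ?_).trans h3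
    congr 1
    show _ = Nat.card ↥{ρ : R | (C ρ).Accepts x ∅}
    rw [Nat.card_coe_set_eq]
    congr 1
    ext ρ
    show (C ρ).τ ≤ (C ρ).val (Pool.Agent.Y630.TF.lit x ∅) (C ρ).out ↔
      (C ρ).τ ≤ (C ρ).val (literals x ∅) (C ρ).out
    rw [hlit]

end Pool.Agent.Results.MP_ec946a_lc.FaultyNegations
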