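import Pool.Agent.Y643.PG.Law

/-!
# The 2-to-1 games conjecture for pure dynamic programs: the sharp threshold `2 / q`

A (max,+) program (a pure dynamic program, a tropical circuit) computes functions of the weights of
constraints, one after the other; each is an input, a real constant, or the maximum or the sum of two
functions computed before. We consider 2-to-1 games with the label set `[q]`, `q` even, on both sides
and `n + n` vertices: a constraint is given by a vertex `s` of the first side, a vertex `t` of the
second side and a map `π` from `[q]` to `[q]` each value of which has exactly two preimages. The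
inputs are the weights of all these constraints. We consider programs whose value never exceeds the
largest total weight of the constraints which a labeling can satisfy.

* There is a program with `O (n ^ 2)` instructions whose value is at least `2 / q` times the optimum,
  for all nonnegative weights. (It takes the maximum over the constant labelings of the first side, and
  the best labels for the second side. Random labels give `1 / q` only.)
* The optimum is computed by a program with `2 ^ (O (n + 1))` instructions.
* If the value is at least `(2 / q + ε) n ^ 2` for each satisfiable game on the complete bipartite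
  graph (one constraint of weight one for each pair `s`, `t`, all of them satisfied by one labeling),
  then the program has at least `2 ^ (γ n) - 1` instructions, where `γ > 0` depends on `q` and
  `ε` only. This holds for randomised programs with success probability `2 ^ (- γ n)` too.

So for every `δ > 0` and every even `q > 2 / δ` pure dynamic programs which certify a value of at
least `δ n ^ 2` for all satisfiable 2-to-1 games have exponential size: the conjecture, with perfect
completeness, holds for pure dynamic programs.

Proof. The lower bound uses the method of helper837 (`Pool.Agent.TH837.MX`) for MAX-3SAT: a small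
program reaches a large value only on few of the planted games. Here the planted games use the shifts
`π + c` of one fixed map `π`, so that each labeling gives exactly one constraint for each pair, and a
constraint is planted with conditional probability at most `2 / q` if the label of one of its
vertices is random.
-/

set_option autoImplicit false

namespace Pool.Agent.Results.MP_ec946a_lc.PureDPThreshold

open Pool.Agent.TH837.MX (Computes)
open Pool.Agent.Y643.PG (Con Labeling val Approx)

/-- The threshold for the approximation of 2-to-1 games with `q` labels by (max,+) programs is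
`2 / q`, even for satisfiable games. -/
theorem result (q : ℕ) (hq : 2 ≤ q) (hq2 : Even q) :
    (∃ c : ℕ, ∀ n : ℕ, ∃ f : (Con n (fun k => k = 0 ∨ k = 2) (Fin q) (Fin q) → ℝ) → ℝ,
      Computes f (c * n ^ 2 + c) ∧ ∀ w, (∀ e, 0 ≤ w e) →
        (∃ z : Labeling n (Fin q) (Fin q), f w ≤ val z w) ∧
          ∀ z : Labeling n (Fin q) (Fin q), 2 / q * val z w ≤ f w) ∧
    (∃ c : ℕ, ∀ n : ℕ, ∃ f : (Con n (fun k => k = 0 ∨ k = 2) (Fin q) (Fin q) → ℝ) → ℝ,
      Computes f (2 ^ (c * (n + 1))) ∧ ∀ w, (∀ e, 0 ≤ w e) →
        (∃ z : Labeling n (Fin q) (Fin q), f w ≤ val z w) ∧
          ∀ z : Labeling n (Fin q) (Fin q), val z w ≤ f w) ∧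
    (∀ ε : ℝ, 0 < ε → ε ≤ 1 → ∃ γ : ℝ, 0 < γ ∧ ∀ (n : ℕ) (Ω : Type) [Fintype Ω] [Nonempty Ω]
      (f : Ω → (Con n (fun k => k = 0 ∨ k = 2) (Fin q) (Fin q) → ℝ) → ℝ),
      Approx (2 / q + ε) (2 ^ (-(γ * n))) f →
      ∀ s : ℕ, (∀ r, Computes (f r) s) → (2 : ℝ) ^ (γ * n) ≤ s + 1) := by
  have : NeZero q := ⟨by omega⟩
  have hdR : (((2 : ℕ) : ℝ) / Fintype.card (Fin q)) = 2 / q := by
    rw [Fintype.card_fin]
    push_cast
    rfl
  refine ⟨?_, Pool.Agent.Y643.PG.brute_law, fun ε hε hε1 => ?_⟩
  · have h := Pool.Agent.Y643.PG.upper_law (p := fun k => k = 0 ∨ k = 2) (β := Fin q)
      (α := Fin q) (d := 2) (fun π x => π.2 x)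
    rw [hdR] at h
    exact h
  · obtain ⟨φ⟩ := Pool.Agent.Y643.PG.fam2_nonempty hq2
    have h := Pool.Agent.Y643.PG.lower_law (p := fun k => k = 0 ∨ k = 2) (β := Fin q)
      (α := Fin q) (d := 2) φ (fun x => by have := φ.2 x; simp only at this; omega) (by
        rw [Fintype.card_fin]; exact hq) (by
        rw [Fintype.card_fin]; omega) (by rw [Fintype.card_fin]; omega) (by
        rw [Fintype.card_fin]; omega) hε hε1
    rw [hdR] at h
    exact h

end Pool.Agent.Results.MP_ec946a_lc.PureDPThreshold
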