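import Pool.Agent.Y601.LD.GameMain

set_option autoImplicit false

/-!
# 2-to-1 games of value one, threshold decision trees and threshold circuits of depth two

The definitions used in the statement are in `Pool/Agent/Y601/LD/GameDefs.lean` (`Con`, `Fibers`,
`present`, `satisfied`, `Tells`, `conBits`), in `Pool/Agent/Y601/LD/GameMain.lean` (`GameTree`), in
`Pool/Agent/Y601/LD/Defs.lean` (`CmpTree`, `label`, `total`, `LowRank`, `LowRank.val`) and in
`Pool/Agent/Y601/LD/BitDefs.lean` (`BitCircuit`, `BitCircuit.val`).

The input is a 2-to-1 game with the alphabet `[q]`, given by a list of `N` constraints on `N` left and
`N` right vertices, and by a weight 0 or 1 for each constraint (the constraints of weight one are the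
edges of the game). The games of value one have to be told from those of value at most `δ`. The
model: a decision tree of any depth asks arbitrary threshold questions about the bits of the input,
with arbitrary real weights; more generally, a question compares an arbitrary function of the
constraints with an arbitrary function of the weights. At the leaf which is reached the answer is
given by a threshold circuit of depth two, with arbitrary real weights at the output gate and small
integer weights at the other gates; more generally, by the sign of a matrix of small rank (rows:
lists of constraints, columns: weights). The model contains linear decision lists, linear decision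
trees, and deterministic and unbounded-error protocols. In this model the conjecture holds in the
following sense: for every `δ > 0` there is an alphabet for which the total size is at least
`N ^ (γ log N)`, so it is not polynomial. The bound holds for every bound `D` on the sizes of the
fibers; it needs only bijective constraints. As in other models without Gaussian elimination, the
hard games are systems of linear equations over the field with two elements.

Idea of the proof. The constraints are `z u + z v = t` for strings of bits, on a graph of logarithmic
girth. The right-hand sides are selected by the weights among many options and are masked. The
density of the satisfiable right-hand sides minus one is then a matrix with a small norm; it is `-1`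
whenever more than the fraction `δ` of the constraints is violated by all labellings. A tree is
constant on a large rectangle, and the method of Forster applies to the leaf.
-/

namespace Pool.Agent.Results.MP_ec946a_lc.ThresholdTrees

open Pool.Agent.Y601.LD Pool.Agent.Y601.LD.Game

/-- For every `δ > 0` and every `D ≥ 1` (`D = 2` for 2-to-1 games) there are `q`, `γ > 0` and `n₀`
with the following property for all `N ≥ n₀`. Let `T` be a decision tree for games with fibers of at
most `D` elements and the alphabet `[q]`, given by `N` constraints on `N` left and `N` right vertices
and by a weight 0 or 1 for each constraint, whose questions have the form
`a (constraints) + b (weights) ≥ 0` with arbitrary real functions `a`, `b`, such that the value at the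
leaf which is reached is positive if the game has value one, and not positive if it has value at most
`δ`.

(1) If the value at a leaf is a function of rank at most `r` of the constraints and the weights, then
the sum of the numbers `r + 1` over all leaves is at least `N ^ (γ log N)`.
(2) If the value at a leaf is the sum of `S` arbitrary functions of integer linear forms of the bits
of the input, such that the coefficients of the bits of the constraints, or those of the weights, have
absolute values with sum at most `R`, then the sum of the numbers `S + 1` over all leaves, times
`2 R + 1`, is at least `N ^ (γ log N)`. -/
theorem result {D : ℕ} (hD : 1 ≤ D) {δ : ℝ} (hδ : 0 < δ) :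
    ∃ q : ℕ, 0 < q ∧ ∃ γ : ℝ, 0 < γ ∧ ∃ n₀ : ℕ, ∀ N : ℕ, n₀ ≤ N →
      (∀ T : GameTree N q (LowRank (Fin N → Con N q) (Fin N → Bool)),
        Tells D δ (fun C w => (T.label C w).val C w) →
        (N : ℝ) ^ (γ * Real.log N) ≤ (T.total fun l => l.r + 1 : ℕ)) ∧
      ∀ (R : ℕ) (T : CmpTree (Fin N × Fin N × Fin N × Fin q × Fin q → Bool) (Fin N → Bool)
        (BitCircuit (Fin N × Fin N × Fin N × Fin q × Fin q) (Fin N) R)),
        Tells (n := N) D δ (fun C w => (T.label (conBits C) w).val (conBits C) w) →
        (N : ℝ) ^ (γ * Real.log N) ≤ ((2 * R + 1) * T.total fun c => c.S + 1 : ℕ) :=
  game_fin hD hδ

end Pool.Agent.Results.MP_ec946a_lc.ThresholdTrees
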